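import Pool.Agent.QSB.StmtsS

/-!
# Squad QSB, row HVT: a vector which commutes with `n` is in the top root space
-/

set_option autoImplicit false

namespace Pool.Agent.QSB.H3

open Matrix Finset Pool.Agent.QSX Pool.Agent.QSB

theorem e_ne {X : Dat} (R : RBas X) (k : R.ι) : R.e k ≠ 0 := R.lin.ne_zero k

theorem e_mem {X : Dat} (R : RBas X) (k : R.ι) : R.e k ∈ X.n := by
  rw [← R.span_e]
  exact Submodule.subset_span ⟨k, rfl⟩

theorem e_rtv {X : Dat} (R : RBas X) (k : R.ι) : RtV X (R.rt k) (R.e k) :=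
  ⟨⟨e_mem R k, R.wt k⟩, e_ne R k⟩

theorem comm_all {X : Dat} (R : RBas X) (y : Matrix (Fin X.m) (Fin X.m) ℝ)
    (h : ∀ k, y * R.e k - R.e k * y = 0) : ∀ u ∈ X.n, y * u - u * y = 0 := by
  intro u hu
  rw [← R.span_e] at hu
  induction hu using Submodule.span_induction with
  | mem z hz =>
    obtain ⟨k, rfl⟩ := hz
    exact h k
  | zero => simp
  | add a b _ _ ha hb =>
    have e : y * (a + b) - (a + b) * y = (y * a - a * y) + (y * b - b * y) := by
      rw [mul_add, add_mul]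
      abel
    rw [e, ha, hb, add_zero]
  | smul c a _ ha =>
    have e : y * (c • a) - (c • a) * y = c • (y * a - a * y) := by
      rw [mul_smul_comm, smul_mul_assoc, smul_sub]
    rw [e, ha, smul_zero]

/-- the Jacobi identity for a commuting pair -/
theorem jac {m : ℕ} (y t x : Matrix (Fin m) (Fin m) ℝ) (h : y * x - x * y = 0)
    (h2 : y * (t * x - x * t) - (t * x - x * t) * y = 0) :
    (y * t - t * y) * x - x * (y * t - t * y) = 0 := by
  have e : (y * t - t * y) * x - x * (y * t - t * y) =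
      (y * (t * x - x * t) - (t * x - x * t) * y) - (t * (y * x - x * y) - (y * x - x * y) * t) := by
    noncomm_ring
  rw [e, h, h2]
  simp

theorem key {X : Dat} (S : Sym X) (hTri : TriStmt) {μ ν : X.b →ₗ[ℝ] ℝ}
    {y x : Matrix (Fin X.m) (Fin X.m) ℝ} (hy : GW S μ y) (hx : GW S ν x)
    (hip : 0 < ip X ν μ) (h : y * x - x * y = 0)
    (h2 : y * (yᵀ * x - x * yᵀ) - (yᵀ * x - x * yᵀ) * y = 0) : False := by
  obtain ⟨hT, hE⟩ := hTri X S μ y hy
  have h3 := jac y yᵀ x h h2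
  rw [hE, smul_mul_assoc, mul_smul_comm, ← smul_sub, hx.2.2 (tv X μ), ip_eq, smul_smul] at h3
  rcases smul_eq_zero.1 h3 with h4 | h4
  · exact absurd h4 (mul_pos hT hip).ne'
  · exact hx.2.1 h4

theorem hvt (hGwb : GwbStmt) (hTri : TriStmt) (hInt : IntStmt) (hWtr : WtrStmt)
    (hDom : DomStmt) : HvtStmt := by
  intro X S R l θ x hlθ hmax hx hcomm
  obtain ⟨g1, g2, g3, g4, g5⟩ := hGwb X S
  have hg : ∀ k, GW S (R.rt k) (R.e k) := fun k => (g1 _ _ (e_rtv R k)).1
  have hp : ∀ k, 0 < R.rt k S.a₀ := fun k => (g1 _ _ (e_rtv R k)).2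
  have hne : ∀ k, R.rt k ≠ 0 := fun k e => by
    have := hp k
    rw [e, LinearMap.zero_apply] at this
    exact lt_irrefl _ this
  have hgx : GW S (R.rt l) x := (g1 _ _ hx).1
  -- (i)
  have i1 : ∀ k, 0 ≤ ip X (R.rt l) (R.rt k) := by
    intro k
    by_contra hlt
    have h1 := (hInt X S (R.rt k) (R.rt l) (R.e k) x (hg k) (hne k) hgx).2.1 (not_le.1 hlt)
    apply h1
    rw [← neg_sub, hcomm k, neg_zero]
  -- (ii)
  have i2 : ∀ k, R.e θ * R.e k - R.e k * R.e θ = 0 := by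
    intro k
    by_contra hne2
    have h1 := g4 _ _ _ _ (hg θ) (hg k) hne2
    have h2 : 0 < (R.rt θ + R.rt k) S.a₀ := by
      rw [LinearMap.add_apply]
      exact add_pos (hp θ) (hp k)
    obtain ⟨s, hs⟩ := (hWtr X R (R.rt θ + R.rt k)).2.1 ⟨_, g2 _ _ h1 h2⟩
    have h3 : Relation.EqvGen (fun l l' => ip X (R.rt l) (R.rt l') ≠ 0) θ s := by
      by_cases h4 : ip X (R.rt θ) (R.rt s) = 0
      · have h5 : ip X (R.rt θ) (R.rt θ) + ip X (R.rt θ) (R.rt k) = 0 := by
          rw [← ip_add_right, ← hs, h4]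
        have h6 := ip_self_pos (hne θ)
        have h7 : ip X (R.rt θ) (R.rt k) ≠ 0 := by
          intro h8
          rw [h8, add_zero] at h5
          exact h6.ne' h5
        have h9 : ip X (R.rt s) (R.rt s) = ip X (R.rt s) (R.rt θ) + ip X (R.rt s) (R.rt k) := by
          rw [← ip_add_right, ← hs]
        have h10 : ip X (R.rt s) (R.rt k) ≠ 0 := by
          intro h8
          rw [h8, ip_comm (R.rt s) (R.rt θ), h4, add_zero] at h9
          exact (ip_self_pos (hne s)).ne' h9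
        exact Relation.EqvGen.trans _ _ _ (Relation.EqvGen.rel _ _ h7)
          (Relation.EqvGen.symm _ _ (Relation.EqvGen.rel _ _ h10))
      · exact Relation.EqvGen.rel _ _ h4
    have h4 : R.Eqv l s := Relation.EqvGen.trans _ _ _ hlθ h3
    have h5 := hmax s h4
    rw [hs, LinearMap.add_apply] at h5
    have h6 := hp k
    linarith
  have i3 : ∀ k, 0 ≤ ip X (R.rt θ) (R.rt k) := by
    intro k
    by_contra hlt
    have h1 := (hInt X S (R.rt k) (R.rt θ) (R.e k) (R.e θ) (hg k) (hne k) (hg θ)).2.1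
      (not_le.1 hlt)
    apply h1
    rw [← neg_sub, i2 k, neg_zero]
  have cx := comm_all R x hcomm
  have cy := comm_all R (R.e θ) i2
  have hne0 := hDom X ⟨S⟩ R l θ hlθ (hne l) i1 i3
  have hpos : 0 < ip X (R.rt l) (R.rt θ) := lt_of_le_of_ne (i1 θ) hne0.symm
  have hxn : x ∈ X.n := hx.1.1
  by_contra hlt
  -- the bracket of `yᵀ` and `x`
  have hyT := g3 _ _ (hg θ)
  have hneg : ip X (R.rt l) (-R.rt θ) < 0 := by
    rw [ip_neg_right]
    linarith
  have hu := (hInt X S (-R.rt θ) (R.rt l) (R.e θ)ᵀ x hyT (neg_ne_zero.2 (hne θ)) hgx).2.1 hneg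
  have hgu := g4 _ _ _ _ hyT hgx hu
  have hv : (-R.rt θ + R.rt l) S.a₀ ≠ 0 := by
    intro h0
    have h1 := g5 _ _ hgu h0
    exact hlt (neg_add_eq_zero.1 h1).symm
  rcases lt_or_gt_of_ne hv with hv | hv
  · -- negative: transpose
    have h1 := g3 _ _ hgu
    have h2 : 0 < (-(-R.rt θ + R.rt l)) S.a₀ := by
      rw [LinearMap.neg_apply]
      linarith
    have h3 : ((R.e θ)ᵀ * x - x * (R.e θ)ᵀ)ᵀ ∈ X.n := (g2 _ _ h1 h2).1.1
    have h4 := cx _ h3
    have h5 : ((R.e θ)ᵀ * x - x * (R.e θ)ᵀ)ᵀ = xᵀ * R.e θ - R.e θ * xᵀ := by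
      rw [transpose_sub, transpose_mul, transpose_mul, transpose_transpose]
    rw [h5] at h4
    exact key S hTri hgx (hg θ) (by rw [ip_comm]; exact hpos) (cx _ (e_mem R θ)) h4
  · have h3 : (R.e θ)ᵀ * x - x * (R.e θ)ᵀ ∈ X.n := (g2 _ _ hgu hv).1.1
    exact key S hTri (hg θ) hgx hpos (cy _ hxn) (cy _ h3)

end Pool.Agent.QSB.H3
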