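import Pool.Agent.QSB.StmtsR

/-!
# Squad QSB, row JCB (helper3): brackets inside a generated direction
-/

set_option autoImplicit false

namespace Pool.Agent.QSB.H3

open Matrix Finset Pool.Agent.QSX Pool.Agent.QSB

section npr

variable {V : Type} [AddCommGroup V] [Module ℝ V]

theorem npr_indep {ρ σ : V →ₗ[ℝ] ℝ} (h : NPr ρ σ) (a b : ℝ) (h0 : a • ρ + b • σ = 0) :
    a = 0 ∧ b = 0 := by
  by_contra hc
  rw [not_and_or] at hc
  rcases hc with ha | hb
  · refine h.1 (-(b / a)) ?_
    have h1 : a • ρ = -(b • σ) := eq_neg_of_add_eq_zero_left h0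
    have h2 : ρ = a⁻¹ • (a • ρ) := by rw [smul_smul, inv_mul_cancel₀ ha, one_smul]
    rw [h2, h1, smul_neg, smul_smul, ← _root_.neg_smul]
    congr 1
    ring
  · refine h.2 (-(a / b)) ?_
    have h1 : b • σ = -(a • ρ) := eq_neg_of_add_eq_zero_right h0
    have h2 : σ = b⁻¹ • (b • σ) := by rw [smul_smul, inv_mul_cancel₀ hb, one_smul]
    rw [h2, h1, smul_neg, smul_smul, ← _root_.neg_smul]
    congr 1
    ring

theorem npr_of_indep {ρ σ : V →ₗ[ℝ] ℝ}
    (h : ∀ a b : ℝ, a • ρ + b • σ = 0 → a = 0 ∧ b = 0) : NPr ρ σ := by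
  constructor
  · intro c hc
    have h1 := (h 1 (-c) (by rw [hc]; module)).1
    exact one_ne_zero h1
  · intro c hc
    have h1 := (h (-c) 1 (by rw [hc]; module)).2
    exact one_ne_zero h1

theorem npr_comb {ρ σ : V →ₗ[ℝ] ℝ} (h : NPr ρ σ) (a b a' b' : ℝ) (hd : a * b' - b * a' ≠ 0) :
    NPr (a • ρ + b • σ) (a' • ρ + b' • σ) := by
  refine npr_of_indep fun p q hpq => ?_
  have h1 : (p * a + q * a') • ρ + (p * b + q * b') • σ = 0 := by
    rw [← hpq]
    module
  obtain ⟨h2, h3⟩ := npr_indep h _ _ h1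
  constructor
  · have h4 : p * (a * b' - b * a') = 0 := by
      linear_combination b' * h2 - a' * h3
    exact (mul_eq_zero.1 h4).resolve_right hd
  · have h4 : q * (a * b' - b * a') = 0 := by
      linear_combination a * h3 - b * h2
    exact (mul_eq_zero.1 h4).resolve_right hd

theorem npr_symm {ρ σ : V →ₗ[ℝ] ℝ} (h : NPr ρ σ) : NPr σ ρ := ⟨h.2, h.1⟩

end npr

/-- the bracket on `X.n` -/
def br (X : Dat) (a b : X.n) : X.n := ⟨_, X.lie a a.2 b b.2⟩

theorem br_coe (X : Dat) (a b : X.n) :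
    (br X a b : Matrix (Fin X.m) (Fin X.m) ℝ) = (a : Matrix (Fin X.m) (Fin X.m) ℝ) * b - b * a := rfl

theorem br_jac (X : Dat) (u v y : X.n) :
    br X (br X u v) y = br X u (br X v y) - br X v (br X u y) := by
  apply Subtype.ext
  simp only [br_coe, Submodule.coe_sub]
  noncomm_ring

/-- the defect of the bracket with `y`, a linear map -/
def dfc (X : Dat) {m : ℕ} (T : X.n →ₗ[ℝ] Matrix (Fin m) (Fin m) ℝ) (y : X.n) :
    X.n →ₗ[ℝ] Matrix (Fin m) (Fin m) ℝ where
  toFun z := T (br X z y) - (T z * T y - T y * T z)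
  map_add' a b := by
    have h1 : br X (a + b) y = br X a y + br X b y := by
      apply Subtype.ext
      simp only [br_coe, Submodule.coe_add]
      noncomm_ring
    rw [h1, map_add, map_add, add_mul, mul_add]
    abel
  map_smul' c a := by
    have h1 : br X (c • a) y = c • br X a y := by
      apply Subtype.ext
      simp only [br_coe, Submodule.coe_smul]
      rw [smul_mul_assoc, mul_smul_comm, smul_sub]
    rw [h1, map_smul, map_smul, smul_mul_assoc, mul_smul_comm, RingHom.id_apply, smul_sub, smul_sub]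

theorem jcb (bwt : BwtStmt) : JcbStmt := by
  intro X m T hT ρ hG c hc x y hx hy
  have hT' : ∀ (ρ σ : X.b →ₗ[ℝ] ℝ), NPr ρ σ → ∀ x y : X.n, WtV X ρ x → WtV X σ y →
      T (br X x y) = T x * T y - T y * T x := hT
  have key : {z : Matrix (Fin X.m) (Fin X.m) ℝ | ∃ σ σ' y y', NPr σ σ' ∧ σ + σ' = ρ ∧
      RtV X σ y ∧ RtV X σ' y' ∧ z = y * y' - y' * y} ⊆
      ((LinearMap.ker (dfc X T y)).map X.n.subtype : Submodule ℝ (Matrix (Fin X.m) (Fin X.m) ℝ)) := by
    rintro z ⟨σ, σ', u, v, hn, hs, ⟨hu, -⟩, ⟨hv, -⟩, rfl⟩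
    set U : X.n := ⟨u, hu.1⟩ with hU
    set W : X.n := ⟨v, hv.1⟩ with hW
    refine Submodule.mem_map.2 ⟨br X U W, ?_, rfl⟩
    rw [LinearMap.mem_ker]
    show T (br X (br X U W) y) - (T (br X U W) * T y - T y * T (br X U W)) = 0
    have hcρ : c • ρ = c • σ + c • σ' := by rw [← hs, smul_add]
    -- the weights of the brackets
    have w1 : WtV X (σ' + c • ρ) (br X W y) := bwt.1 X σ' (c • ρ) v y hv hy
    have w2 : WtV X (σ + c • ρ) (br X U y) := bwt.1 X σ (c • ρ) u y hu hy
    -- not proportional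
    have n1 : NPr σ' (c • ρ) := by
      have h := npr_comb hn 0 1 c c (by simpa using hc.ne')
      rwa [zero_smul, one_smul, zero_add, ← hcρ] at h
    have n2 : NPr σ (c • ρ) := by
      have h := npr_comb hn 1 0 c c (by simpa using hc.ne')
      rwa [zero_smul, one_smul, add_zero, ← hcρ] at h
    have n3 : NPr σ (σ' + c • ρ) := by
      have h := npr_comb hn 1 0 c (1 + c) (by
        have : (0 : ℝ) < 1 + c := by linarith
        simpa using this.ne')
      rw [zero_smul, one_smul, add_zero] at h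
      have e : c • σ + (1 + c) • σ' = σ' + c • ρ := by
        rw [hcρ]
        module
      rwa [e] at h
    have n4 : NPr σ' (σ + c • ρ) := by
      have h := npr_comb hn 0 1 (1 + c) c (by
        have : (0 : ℝ) < 1 + c := by linarith
        intro h0
        linarith)
      rw [zero_smul, one_smul, zero_add] at h
      have e : (1 + c) • σ + c • σ' = σ + c • ρ := by
        rw [hcρ]
        module
      rwa [e] at h
    have t0 := hT' σ σ' hn U W hu hv
    have t1 := hT' σ' (c • ρ) n1 W y hv hy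
    have t2 := hT' σ (c • ρ) n2 U y hu hy
    have t3 := hT' σ (σ' + c • ρ) n3 U (br X W y) hu w1
    have t4 := hT' σ' (σ + c • ρ) n4 W (br X U y) hv w2
    rw [br_jac, map_sub, t3, t4, t1, t2, t0]
    noncomm_ring
  have hmem := Submodule.span_le.2 key (hG x hx)
  obtain ⟨x', hx', hxx⟩ := Submodule.mem_map.1 hmem
  have hxe : x' = x := Subtype.ext hxx
  rw [hxe, LinearMap.mem_ker] at hx'
  exact sub_eq_zero.1 hx'

end Pool.Agent.QSB.H3
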